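import Pool.Agent.Helper49.RU.St

/-!
# Project RU (MP_a60174_an), module TSB: antilinear parts
-/

set_option autoImplicit false

namespace Pool.Agent.Helper80.RU

open Pool.Agent.Helper49.RU
open MeasureTheory Filter Topology Complex
open scoped ENNReal Cardinal ComplexConjugate

/-- The block of an operator. -/
private noncomputable def blk (M : H →L[ℝ] H) (k : ℕ) : V k →L[ℝ] V k :=
  LinearMap.mkContinuous
    { toFun := fun z => (M (lp.single 2 k z)) k
      map_add' := by
        intro x y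
        rw [lp.single_add, map_add]
        rfl
      map_smul' := by
        intro c x
        rw [lp.single_smul, map_smul]
        rfl } ‖M‖ (by
      intro z
      change ‖(M (lp.single 2 k z)) k‖ ≤ ‖M‖ * ‖z‖
      refine (lp.norm_apply_le_norm (by norm_num) (M (lp.single 2 k z)) k).trans ?_
      refine (M.le_opNorm _).trans (le_of_eq ?_)
      rw [lp.norm_single (by norm_num)])

private theorem blk_apply (M : H →L[ℝ] H) (k : ℕ) (z : V k) :
    blk M k z = (M (lp.single 2 k z)) k := rfl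

private theorem blk_norm (M : H →L[ℝ] H) (k : ℕ) : ‖blk M k‖ ≤ ‖M‖ :=
  LinearMap.mkContinuous_norm_le _ (norm_nonneg _) _

private theorem tst_blk (M : H →L[ℝ] H) (k : ℕ) (z : V k) :
    tst (⇑M) (lp.single 2 k z : H) = tst (⇑(blk M k)) z := by
  unfold tst
  rw [← lp.single_smul, lp.inner_single_left, lp.inner_single_left, blk_apply, blk_apply]

theorem hTSB (hHLF : StHLF) (hANT : StANT) : StTSB := by
  intro X hX M ε hε
  obtain ⟨hD, hR⟩ := hX
  refine ⟨{c : Code | c ∈ X ∧ ∀ g ∈ c.2, |tst (⇑M) (zeta ⟨c.1, g⟩)| ≤ ε}, fun c hc => hc.1,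
    ⟨?_, ?_⟩, fun c hc => hc.2⟩
  · intro k Z Z' hZ hc
    exact ⟨hD k Z Z' hZ hc.1, fun g hg => hc.2 g (hZ hg)⟩
  · intro j
    obtain ⟨L, hL⟩ := hANT j ‖M‖ ε hε
    obtain ⟨k, hk, Z, hZX, hZ⟩ := hR (max j L)
    have hZL : Big L Z := hHLF.1 L (max j L) k Z (le_max_right _ _) hZ
    obtain ⟨Y, hYZ, hY, hYt⟩ := hL k Z hZL (blk M k) (blk_norm M k)
    refine ⟨k, (le_max_left _ _).trans hk, Y, ⟨hD k Z Y hYZ hZX, ?_⟩, hY⟩
    intro g hg
    change |tst (⇑M) (lp.single 2 k (zz g) : H)| ≤ ε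
    rw [tst_blk]
    exact hYt g hg

end Pool.Agent.Helper80.RU
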